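import Pool.Agent.Lib.MP_6ec4b3_lc.Interfaces

/-!
# Module PTW: the word of an instance is computable in polynomial time
-/

namespace Pool.Agent.Polya.H42

open Pool.Agent.TMLib Pool.Agent.Shoped30

section lib

variable {α β γ δ : Type} [TrEnc α] [TrEnc β] [TrEnc γ] [TrEnc δ]

theorem pt_unaryW {n : α → ℕ} (hn : PTime n) : PTime (fun a => unaryW (n a)) := by
  unfold unaryW
  fun_prop

theorem pt_toNat {b : α → Bool} (hb : PTime b) : PTime (fun a => (b a).toNat) := by
  refine (PTime.ite (f := fun _ => 1) (g := fun _ => 0) hb (PTime.const _)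
    (PTime.const _)).of_eq (fun a => ?_)
  cases b a <;> rfl

theorem pt_repN {p q : α → Bool} {a : α → ℕ} (hp : PTime p) (hq : PTime q) (ha : PTime a) :
    PTime (fun x => repN (p x) (q x) (a x)) :=
  PTime.getD ha (PTime.getD (pt_toNat hq) (PTime.getD (pt_toNat hp) (PTime.const _)
    (PTime.const _)) (PTime.const _)) (PTime.const _)

theorem pt_cenN {a : α → ℕ} (ha : PTime a) : PTime (fun x => cenN (a x)) :=
  PTime.getD ha (PTime.const _) (PTime.const _)

theorem pt_chunk {l j : α → ℕ} {r : α → List Bool} (hl : PTime l) (hj : PTime j)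
    (hr : PTime r) : PTime (fun x => chunk (l x) (j x) (r x)) := by
  unfold chunk
  fun_prop

theorem pt_place {l u : α → ℕ} {φ : α → List Bool} (hl : PTime l) (hu : PTime u)
    (hφ : PTime φ) : PTime (fun x => place (l x) (u x) (φ x)) := by
  unfold place
  fun_prop

theorem pt_qn {n t u v i : α → ℕ} (hn : PTime n) (ht : PTime t) (hu : PTime u) (hv : PTime v)
    (hi : PTime i) : PTime (fun x => qn (n x) (t x) (u x) (v x) (i x)) := by
  unfold qn
  fun_prop

theorem pt_pairRows {l u v : α → ℕ} {e : α → Bool} {φ ψ : α → List Bool} (hl : PTime l)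
    (hu : PTime u) (hv : PTime v) (he : PTime e) (hφ : PTime φ) (hψ : PTime ψ) :
    PTime (fun x => pairRows (l x) (u x) (v x) (e x) (φ x) (ψ x)) := by
  have h1 := pt_place hl hu hφ
  have h2 := pt_place hl hv hψ
  exact PTime.ite he
    (PTime.cons (PTime.pair h1 h2) (PTime.cons (PTime.const _) (PTime.const _)))
    (PTime.cons (PTime.pair h1 (PTime.const _)) (PTime.cons (PTime.pair (PTime.const _) h2)
      (PTime.const _)))

/-- The relation is given by a function of two numbers depending on the argument. -/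
theorem pt_rowsOf {n l t : α → ℕ} {E : α → ℕ → ℕ → Bool} {r : α → List Bool} (hn : PTime n)
    (hl : PTime l) (ht : PTime t)
    (hE : PTime (fun p : α × ℕ × ℕ => E p.1 p.2.1 p.2.2)) (hr : PTime r) :
    PTime (fun x => rowsOf (n x) (l x) (t x) (E x) (r x)) := by
  refine PTime.append ?_ ?_
  · refine PTime.map (l := fun x => List.range (n x * l x))
      (F := fun _ j => (List.replicate j false ++ [true], [])) (by fun_prop) (by fun_prop)
  · refine PTime.flatMap (l := fun x => List.range (n x))
      (F := fun x u => (List.range (n x)).flatMap fun v => (List.range (t x)).flatMap fun i =>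
        pairRows (l x) u v (E x u v) (chunk (l x) (2 * qn (n x) (t x) u v i) (r x))
          (chunk (l x) (2 * qn (n x) (t x) u v i + 1) (r x))) (by fun_prop) ?_
    refine PTime.flatMap (l := fun p : α × ℕ => List.range (n p.1))
      (F := fun p v => (List.range (t p.1)).flatMap fun i =>
        pairRows (l p.1) p.2 v (E p.1 p.2 v)
          (chunk (l p.1) (2 * qn (n p.1) (t p.1) p.2 v i) (r p.1))
          (chunk (l p.1) (2 * qn (n p.1) (t p.1) p.2 v i + 1) (r p.1))) (by fun_prop) ?_
    refine PTime.flatMap (l := fun p : (α × ℕ) × ℕ => List.range (t p.1.1))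
      (F := fun p i =>
        pairRows (l p.1.1) p.1.2 p.2 (E p.1.1 p.1.2 p.2)
          (chunk (l p.1.1) (2 * qn (n p.1.1) (t p.1.1) p.1.2 p.2 i) (r p.1.1))
          (chunk (l p.1.1) (2 * qn (n p.1.1) (t p.1.1) p.1.2 p.2 i + 1) (r p.1.1)))
      (by fun_prop) ?_
    have h1 : PTime (fun p : ((α × ℕ) × ℕ) × ℕ => l p.1.1.1) := by fun_prop
    have h2 : PTime (fun p : ((α × ℕ) × ℕ) × ℕ => p.1.1.2) := by fun_prop
    have h3 : PTime (fun p : ((α × ℕ) × ℕ) × ℕ => p.1.2) := by fun_prop
    have h4 : PTime (fun p : ((α × ℕ) × ℕ) × ℕ => r p.1.1.1) := by fun_prop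
    have h5 : PTime (fun p : ((α × ℕ) × ℕ) × ℕ => E p.1.1.1 p.1.1.2 p.1.2) :=
      hE.comp' (f := fun p : ((α × ℕ) × ℕ) × ℕ => (p.1.1.1, p.1.1.2, p.1.2)) (by fun_prop)
    have h6 : PTime (fun p : ((α × ℕ) × ℕ) × ℕ =>
        2 * qn (n p.1.1.1) (t p.1.1.1) p.1.1.2 p.1.2 p.2) :=
      PTime.mul (PTime.const _) (pt_qn (by fun_prop) (by fun_prop) h2 h3 (by fun_prop))
    exact pt_pairRows h1 h2 h3 h5 (pt_chunk h1 h6 h4) (pt_chunk h1 (PTime.succ h6) h4)

/-! ### The word -/

/-- The image of one point under a generator of a coordinate. -/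
def w1 (i : ℕ) (x : ℕ × Row) (b : ℕ) : List Bool :=
  unaryW (repN (x.2.1.getD i false) (x.2.2.getD i false) b + 4 * x.1)

theorem pt_w1 {i : α → ℕ} {x : α → ℕ × Row} {b : α → ℕ} (hi : PTime i) (hx : PTime x)
    (hb : PTime b) : PTime (fun a => w1 (i a) (x a) (b a)) := by
  unfold w1
  have h1 : PTime (fun a => (x a).2.1.getD (i a) false) := by
    fun_prop
  have h2 : PTime (fun a => (x a).2.2.getD (i a) false) := by
    fun_prop
  have h3 : PTime (fun a => 4 * (x a).1) := by fun_prop
  exact pt_unaryW (PTime.add (pt_repN h1 h2 hb) h3)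

/-- The images of the points of a row. -/
def w2 (i : ℕ) (x : ℕ × Row) : List Bool := [0, 1, 2, 3].flatMap fun b => w1 i x b

theorem pt_w2 {i : α → ℕ} {x : α → ℕ × Row} (hi : PTime i) (hx : PTime x) :
    PTime (fun a => w2 (i a) (x a)) := by
  unfold w2
  exact PTime.flatMap (l := fun _ : α => [0, 1, 2, 3]) (F := fun a b => w1 (i a) (x a) b)
    (PTime.const _) (pt_w1 (by fun_prop) (by fun_prop) (by fun_prop))

/-- The generator of a coordinate. -/
def w3 (i : ℕ) (R : List Row) : List Bool :=
  ((List.range R.length).zip R).flatMap fun x => w2 i x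

theorem pt_w3 {i : α → ℕ} {R : α → List Row} (hi : PTime i) (hR : PTime R) :
    PTime (fun a => w3 (i a) (R a)) := by
  have hz : PTime (fun a => (List.range (R a).length).zip (R a)) := by fun_prop
  unfold w3
  exact PTime.flatMap (l := fun a : α => (List.range (R a).length).zip (R a))
    (F := fun a x => w2 (i a) x) hz (pt_w2 (by fun_prop) (by fun_prop))

/-- The generators of the coordinates. -/
def w4 (L : ℕ) (R : List Row) : List Bool := (List.range L).flatMap fun i => w3 i R

theorem pt_w4 {L : α → ℕ} {R : α → List Row} (hL : PTime L) (hR : PTime R) :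
    PTime (fun a => w4 (L a) (R a)) := by
  unfold w4
  exact PTime.flatMap (l := fun a : α => List.range (L a))
    (F := fun a i => w3 i (R a)) (by fun_prop) (pt_w3 (by fun_prop) (by fun_prop))

/-- The image of one point under a central generator. -/
def c1 (j j' b : ℕ) : List Bool := unaryW ((if j' = j then cenN b else b) + 4 * j')

theorem pt_c1 {j j' b : α → ℕ} (hj : PTime j) (hj' : PTime j') (hb : PTime b) :
    PTime (fun a => c1 (j a) (j' a) (b a)) := by
  unfold c1
  have h1 : PTime (fun a => decide (j' a = j a)) := pt_eq hj' hj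
  have h3 : PTime (fun a => if j' a = j a then cenN (b a) else b a) :=
    PTime.ite_prop (c := fun a => j' a = j a) h1 (pt_cenN hb) hb
  exact pt_unaryW (PTime.add h3 (by fun_prop))

/-- The images of the points of a block. -/
def c2 (j j' : ℕ) : List Bool := [0, 1, 2, 3].flatMap fun b => c1 j j' b

theorem pt_c2 {j j' : α → ℕ} (hj : PTime j) (hj' : PTime j') :
    PTime (fun a => c2 (j a) (j' a)) := by
  unfold c2
  exact PTime.flatMap (l := fun _ : α => [0, 1, 2, 3]) (F := fun a b => c1 (j a) (j' a) b)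
    (PTime.const _) (pt_c1 (by fun_prop) (by fun_prop) (by fun_prop))

/-- A central generator. -/
def c3 (m j : ℕ) : List Bool := (List.range m).flatMap fun j' => c2 j j'

theorem pt_c3 {m j : α → ℕ} (hm : PTime m) (hj : PTime j) :
    PTime (fun a => c3 (m a) (j a)) := by
  unfold c3
  exact PTime.flatMap (l := fun a : α => List.range (m a))
    (F := fun a j' => c2 (j a) j') (by fun_prop) (pt_c2 (by fun_prop) (by fun_prop))

/-- The central generators. -/
def c4 (m : ℕ) : List Bool := (List.range m).flatMap fun j => c3 m j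

theorem pt_c4 {m : α → ℕ} (hm : PTime m) : PTime (fun a => c4 (m a)) := by
  unfold c4
  exact PTime.flatMap (l := fun a : α => List.range (m a))
    (F := fun a j => c3 (m a) j) (by fun_prop) (pt_c3 (by fun_prop) (by fun_prop))

theorem word_eq (L : ℕ) (R : List Row) :
    word L R = unaryW (R.length * 4) ++ (w4 L R ++ c4 R.length) := rfl

theorem pt_word {L : α → ℕ} {R : α → List Row} (hL : PTime L) (hR : PTime R) :
    PTime (fun x => word (L x) (R x)) := by
  have hlen : PTime (fun x => (R x).length) := PTime.length hR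
  have h0 : PTime (fun x => unaryW ((R x).length * 4)) :=
    pt_unaryW (PTime.mul hlen (PTime.const 4))
  exact (PTime.append h0 (PTime.append (pt_w4 hL hR) (pt_c4 hlen))).of_eq
    (fun x => word_eq _ _)

theorem pt_nodes {ψ : α → List Cl4} (hψ : PTime ψ) : PTime (fun a => nodes (ψ a)) := by
  refine PTime.flatMap (l := fun a => (List.range (ψ a).length).zip (ψ a))
    (F := fun _ x => [(x.1, x.2.1), (x.1, x.2.2.1), (x.1, x.2.2.2.1), (x.1, x.2.2.2.2)])
    (by fun_prop) (by fun_prop)

theorem pt_conf {ψ : α → List Cl4} {u v : α → ℕ} (hψ : PTime ψ) (hu : PTime u)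
    (hv : PTime v) : PTime (fun a => conf (ψ a) (u a) (v a)) := by
  have hn := pt_nodes hψ
  have h1 : PTime (fun a => (nodes (ψ a)).getD (u a) (0, (0, false))) :=
    PTime.getD hu hn (PTime.const _)
  have h2 : PTime (fun a => (nodes (ψ a)).getD (v a) (0, (0, false))) :=
    PTime.getD hv hn (PTime.const _)
  exact PTime.or (PTime.and (pt_eq (PTime.fst h1) (PTime.fst h2)) (PTime.not (pt_eq hu hv)))
    (PTime.and (pt_eq (PTime.fst (PTime.snd h1)) (PTime.fst (PTime.snd h2)))
      (PTime.xor (PTime.snd (PTime.snd h1)) (PTime.snd (PTime.snd h2))))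

theorem pt_tc (k : ℕ) {c h : α → ℕ} (hc : PTime c) (hh : PTime h) :
    PTime (fun a => tc k (c a) (h a)) := by
  unfold tc tf wf
  fun_prop

theorem pt_cnfRows (k : ℕ) {h : α → ℕ} {ψ : α → List Cl4} {l : α → ℕ} {r : α → List Bool}
    (hh : PTime h) (hψ : PTime ψ) (hl : PTime l) (hr : PTime r) :
    PTime (fun a => cnfRows k (h a) (ψ a) (l a) (r a)) := by
  refine pt_rowsOf (E := fun a => conf (ψ a)) (by fun_prop) hl
    (pt_tc k (PTime.length hψ) hh) ?_ hr
  exact pt_conf (ψ := fun p : α × ℕ × ℕ => ψ p.1) (by fun_prop) (by fun_prop) (by fun_prop)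

theorem pt_cnfWord (k : ℕ) {h : α → ℕ} {ψ : α → List Cl4} {l : α → ℕ} {r : α → List Bool}
    (hh : PTime h) (hψ : PTime ψ) (hl : PTime l) (hr : PTime r) :
    PTime (fun a => cnfWord k (h a) (ψ a) (l a) (r a)) :=
  pt_word (by fun_prop) (pt_cnfRows k hh hψ hl hr)

end lib

/-- Module PTW. -/
theorem ptw : PTW := fun k hf hhf =>
  pt_cnfWord k (hhf.comp' (f := fun x : List Cl4 × ℕ × List Bool => x.1.length) (by fun_prop))
    (by fun_prop) (by fun_prop) (by fun_prop)

end Pool.Agent.Polya.H42
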